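import Mathlib
import Pool.Agent.Y356.MonoAP.Final

set_option autoImplicit false

/-!
For every `k ≥ 3` and `r ≥ 2` there are `r`-colourings of `[n]` whose number of monochromatic
`k`-term arithmetic progressions is `δ n² + O(n)` with `δ` strictly below the random rate.
-/

namespace Pool.Agent.Results.MP_6bff71_co.BeatRandom

/-- `S` is a `k`-term arithmetic progression `{a, a + d, …, a + (k - 1) d}`, `a, d ≥ 1`, contained
in `{1, …, n}`. -/
def IsAP (k n : ℕ) (S : Finset ℕ) : Prop :=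
  ∃ a d : ℕ, 1 ≤ a ∧ 1 ≤ d ∧ a + (k - 1) * d ≤ n ∧ S = (Finset.range k).image (fun i => a + i * d)

/-- the number of `k`-term arithmetic progressions in `{1, …, n}` on which `χ` is constant -/
noncomputable def M {r : ℕ} (k n : ℕ) (χ : ℕ → Fin r) : ℕ :=
  {S : Finset ℕ | IsAP k n S ∧ ∃ c : Fin r, ∀ x ∈ S, χ x = c}.ncard

theorem M_eq {r K n : ℕ} (hK : 1 ≤ K) (χ : ℕ → Fin r) :
    M (K + 1) n χ = Pool.Agent.Y356.MonoAP.Mp K n χ := by
  classical
  have h : {S : Finset ℕ | IsAP (K + 1) n S ∧ ∃ c : Fin r, ∀ x ∈ S, χ x = c} =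
      Pool.Agent.Y356.MonoAP.ap K ''
        (((Pool.Agent.Y356.MonoAP.par K n).filter
          (fun p => ∃ c, ∀ x ∈ Pool.Agent.Y356.MonoAP.ap K p, χ x = c) : Finset (ℕ × ℕ)) :
            Set (ℕ × ℕ)) := by
    ext S
    simp only [Set.mem_ofPred_eq, Set.mem_image, Finset.mem_coe, Finset.mem_filter,
      Pool.Agent.Y356.MonoAP.mem_par hK]
    constructor
    · rintro ⟨⟨a, d, ha, hd, hn, rfl⟩, hc⟩
      exact ⟨(a, d), ⟨⟨ha, hd, by simpa using hn⟩, hc⟩, rfl⟩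
    · rintro ⟨p, ⟨⟨h1, h2, h3⟩, hc⟩, rfl⟩
      exact ⟨⟨p.1, p.2, h1, h2, by simpa using h3, rfl⟩, hc⟩
  unfold M
  rw [h, Set.ncard_image_of_injOn, Set.ncard_coe_finset]
  · unfold Pool.Agent.Y356.MonoAP.Mp
    congr
  · refine (Pool.Agent.Y356.MonoAP.ap_inj (n := n) hK).mono ?_
    intro p hp
    exact Finset.mem_coe.2 (Finset.mem_filter.1 (Finset.mem_coe.1 hp)).1

/-- For all `k ≥ 3` and `r ≥ 2` there are a constant `δ` below the random rate
`1 / (2 (k - 1) r ^ (k - 1))`, a constant `C` and `r`-colourings `χ n` such that `χ n` has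
`δ n² + O(n)` monochromatic `k`-term arithmetic progressions in `{1, …, n}`, for every `n`. -/
theorem result (k r : ℕ) (hk : 3 ≤ k) (hr : 2 ≤ r) :
    ∃ δ : ℝ, δ < 1 / (2 * ((k : ℝ) - 1) * (r : ℝ) ^ (k - 1)) ∧
      ∃ (C : ℝ) (χ : ℕ → ℕ → Fin r), ∀ n : ℕ, |(M k n (χ n) : ℝ) - δ * (n : ℝ) ^ 2| ≤ C * n := by
  obtain ⟨K, rfl⟩ : ∃ K, k = K + 1 := ⟨k - 1, by omega⟩
  obtain ⟨m, rfl⟩ : ∃ m, r = m + 2 := ⟨r - 2, by omega⟩
  obtain ⟨δ, hδ, C, h⟩ := Pool.Agent.Y356.MonoAP.exists_exact (K := K) (m := m) (by omega)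
  choose χ hχ using h
  refine ⟨δ, ?_, C, χ, fun n => ?_⟩
  · have e1 : (((K + 1 : ℕ) : ℝ) - 1) = K := by push_cast; ring
    have e2 : K + 1 - 1 = K := by omega
    rw [e1, e2]
    push_cast
    exact hδ
  · rw [M_eq (by omega)]
    exact hχ n

end Pool.Agent.Results.MP_6bff71_co.BeatRandom
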